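import Pool.Agent.N908.Cox.Main

/-!
For every Coxeter system `(W, S)` and every sign choice `c` the sequence
`1 → ℤ/2 → W' → W → 1` is exact, in particular `q ≠ 1` in `W'`.
-/

set_option autoImplicit false

namespace Pool.Agent.Results.MP_07fa45_al.SignExtensionExact

/-- The relations of the group `W'`: its generators are `some s` for `s ∈ S`, and `none`, which
stands for `q`. They are `s² = 1`, `q² = 1`, `q s = s q`, and, for `s ≠ t` with `m_{st} < ∞`
(Mathlib writes `m_{st} = ∞` as `M s t = 0`), `(s t)^{m_{st}} = 1` if `c_{st} = 1` and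
`(s t)^{m_{st}} = q` if `c_{st} = -1`. -/
def signRelations {B : Type*} (M : CoxeterMatrix B) (c : B → B → ℤˣ) :
    Set (FreeGroup (Option B)) :=
  {r | (∃ s : B, r = FreeGroup.of (some s) ^ 2) ∨
    r = FreeGroup.of none ^ 2 ∨
    (∃ s : B, r = FreeGroup.of none * FreeGroup.of (some s) *
      (FreeGroup.of (some s) * FreeGroup.of none)⁻¹) ∨
    (∃ s t : B, s ≠ t ∧ M s t ≠ 0 ∧ c s t = 1 ∧
      r = (FreeGroup.of (some s) * FreeGroup.of (some t)) ^ M s t) ∨
    (∃ s t : B, s ≠ t ∧ M s t ≠ 0 ∧ c s t = -1 ∧
      r = (FreeGroup.of (some s) * FreeGroup.of (some t)) ^ M s t * (FreeGroup.of none)⁻¹)}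

/-- The group `W'` attached to a Coxeter matrix and a sign choice. -/
abbrev SignGroup {B : Type*} (M : CoxeterMatrix B) (c : B → B → ℤˣ) : Type _ :=
  PresentedGroup (signRelations M c)

/-- For every Coxeter system and every sign choice `c` (symmetric, and constant on the classes of
pairs `(s,t)`, `s ≠ t`, `m_{st} < ∞`, under simultaneous conjugation), there is a surjective
homomorphism `π : W' → W` with `π(s) = s` and `π(q) = 1`, its kernel is `{1, q}`, and `q ≠ 1`. -/
theorem result {B : Type*} {W : Type*} [Group W] {M : CoxeterMatrix B} (cs : CoxeterSystem M W)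
    (c : B → B → ℤˣ)
    (hsymm : ∀ s t : B, s ≠ t → M s t ≠ 0 → c s t = c t s)
    (hconj : ∀ s t s' t' : B, s ≠ t → M s t ≠ 0 → s' ≠ t' → M s' t' ≠ 0 →
      (∃ g : W, g * cs.simple s * g⁻¹ = cs.simple s' ∧ g * cs.simple t * g⁻¹ = cs.simple t') →
      c s t = c s' t') :
    ∃ π : SignGroup M c →* W,
      (∀ s : B, π (PresentedGroup.of (some s)) = cs.simple s) ∧
      π (PresentedGroup.of none) = 1 ∧
      Function.Surjective π ∧
      (∀ x : SignGroup M c, π x = 1 ↔ x = 1 ∨ x = PresentedGroup.of none) ∧
      (PresentedGroup.of none : SignGroup M c) ≠ 1 := by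
  -- the relations in `W'`
  have hrel : ∀ r ∈ signRelations M c, (PresentedGroup.mk (signRelations M c) r) = 1 :=
    fun r hr => PresentedGroup.one_of_mem hr
  let S : B → SignGroup M c := fun s => PresentedGroup.of (some s)
  let q : SignGroup M c := PresentedGroup.of none
  have hS : ∀ s, S s ^ 2 = 1 := fun s => by
    have := hrel _ (Or.inl ⟨s, rfl⟩)
    rwa [map_pow] at this
  have hq : q ^ 2 = 1 := by
    have := hrel _ (Or.inr (Or.inl rfl))
    rwa [map_pow] at this
  have hqS : ∀ s, q * S s = S s * q := fun s => by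
    have := hrel _ (Or.inr (Or.inr (Or.inl ⟨s, rfl⟩)))
    rw [map_mul, map_inv, map_mul, map_mul, mul_inv_eq_one] at this
    exact this
  have hp : ∀ s t, s ≠ t → M s t ≠ 0 → (S s * S t) ^ M s t = 1 ∨ (S s * S t) ^ M s t = q := by
    intro s t hst h0
    rcases Int.units_eq_one_or (c s t) with h | h
    · left
      have := hrel _ (Or.inr (Or.inr (Or.inr (Or.inl ⟨s, t, hst, h0, h, rfl⟩))))
      rwa [map_pow, map_mul] at this
    · right
      have := hrel _ (Or.inr (Or.inr (Or.inr (Or.inr ⟨s, t, hst, h0, h, rfl⟩))))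
      rw [map_mul, map_pow, map_mul, map_inv, mul_inv_eq_one] at this
      exact this
  -- the projection
  let π : SignGroup M c →* W := PresentedGroup.toGroup
    (f := fun o : Option B => Option.elim o 1 cs.simple) (rels := signRelations M c) (by
      rintro r (⟨s, rfl⟩ | rfl | ⟨s, rfl⟩ | ⟨s, t, hst, h0, h, rfl⟩ | ⟨s, t, hst, h0, h, rfl⟩)
      · simp
      · simp
      · simp
      · simp
      · simp)
  have hπS : ∀ s, π (S s) = cs.simple s := fun s => PresentedGroup.toGroup.of _
  have hπq : π q = 1 := PresentedGroup.toGroup.of _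
  -- `q` is central
  have hcen : ∀ x : SignGroup M c, q * x = x * q := by
    have h1 : (MulAut.conj q).toMonoidHom = MonoidHom.id (SignGroup M c) := by
      apply PresentedGroup.ext
      rintro (_ | s)
      · show q * q * q⁻¹ = q
        rw [mul_inv_cancel_right]
      · show q * S s * q⁻¹ = S s
        rw [hqS, mul_inv_cancel_right]
    intro x
    have h2 : q * x * q⁻¹ = x := DFunLike.congr_fun h1 x
    rwa [mul_inv_eq_iff_eq_mul] at h2
  refine ⟨π, hπS, hπq, ?_, ?_, ?_⟩
  · -- surjectivity
    intro w
    induction w using cs.simple_induction with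
    | simple i => exact ⟨S i, hπS i⟩
    | one => exact ⟨1, map_one π⟩
    | mul w w' h h' =>
      obtain ⟨x, hx⟩ := h
      obtain ⟨y, hy⟩ := h'
      exact ⟨x * y, by rw [map_mul, hx, hy]⟩
  · -- the kernel
    intro x
    constructor
    · intro hx
      let N : Subgroup (SignGroup M c) := Subgroup.zpowers q
      have hN : N.Normal := by
        refine ⟨fun n hn g => ?_⟩
        obtain ⟨k, rfl⟩ := Subgroup.mem_zpowers_iff.1 hn
        have hc' : Commute q g := hcen g
        have h1 : g * q ^ k * g⁻¹ = q ^ k := by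
          rw [(hc'.zpow_left k).symm.eq, mul_inv_cancel_right]
        rw [h1]
        exact hn
      have hqN : QuotientGroup.mk' N q = 1 := by
        rw [QuotientGroup.mk'_apply, QuotientGroup.eq_one_iff]
        exact Subgroup.mem_zpowers q
      have hl : M.IsLiftable fun s => QuotientGroup.mk' N (S s) := by
        intro i j
        rw [← map_mul, ← map_pow]
        by_cases hij : i = j
        · subst hij
          rw [M.diagonal, pow_one, ← pow_two, hS, map_one]
        by_cases h0 : M i j = 0
        · rw [h0, pow_zero, map_one]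
        rcases hp i j hij h0 with h | h
        · rw [h, map_one]
        · rw [h, hqN]
      have hcomp : (cs.lift ⟨_, hl⟩).comp π = QuotientGroup.mk' N := by
        apply PresentedGroup.ext
        rintro (_ | s)
        · show cs.lift ⟨_, hl⟩ (π q) = QuotientGroup.mk' N q
          rw [hπq, map_one, hqN]
        · show cs.lift ⟨_, hl⟩ (π (S s)) = QuotientGroup.mk' N (S s)
          rw [hπS]
          exact cs.lift_apply_simple hl s
      have h1 : QuotientGroup.mk' N x = 1 := by
        rw [← hcomp, MonoidHom.comp_apply, hx, map_one]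
      rw [QuotientGroup.mk'_apply, QuotientGroup.eq_one_iff] at h1
      obtain ⟨k, rfl⟩ := Subgroup.mem_zpowers_iff.1 h1
      have hq2 : q ^ (2 : ℤ) = 1 := by
        rw [show (2 : ℤ) = ((2 : ℕ) : ℤ) by rfl, zpow_natCast, hq]
      rcases Int.even_or_odd' k with ⟨j, rfl | rfl⟩
      · left; rw [zpow_mul, hq2, one_zpow]
      · right; rw [zpow_add, zpow_mul, hq2, one_zpow, one_mul, zpow_one]
    · rintro (rfl | rfl)
      · exact map_one π
      · exact hπq
  · -- `q ≠ 1`
    obtain ⟨G, _, z, f, hz, hzz, hzc, hff, h1, h2⟩ :=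
      Pool.Agent.N908.Cox.exists_solution cs c hsymm hconj
    intro hq1
    apply hz
    let ψ : SignGroup M c →* G := PresentedGroup.toGroup
      (f := fun o : Option B => Option.elim o z f) (rels := signRelations M c) (by
        rintro r (⟨s, rfl⟩ | rfl | ⟨s, rfl⟩ | ⟨s, t, hst, h0, h, rfl⟩ | ⟨s, t, hst, h0, h, rfl⟩)
        · simp [pow_two, hff]
        · simp [pow_two, hzz]
        · simp only [map_mul, FreeGroup.lift_apply_of, Option.elim_none, Option.elim_some, map_inv]
          rw [hzc, mul_inv_cancel]
        · simp only [map_mul, map_pow, FreeGroup.lift_apply_of, Option.elim_some]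
          exact h1 s t hst h0 h
        · simp only [map_mul, map_pow, FreeGroup.lift_apply_of, Option.elim_none,
            Option.elim_some, map_inv]
          rw [h2 s t hst h0 h, mul_inv_cancel])
    have hψ : ψ (PresentedGroup.of none) = z := PresentedGroup.toGroup.of _
    rw [← hψ, hq1, map_one]

end Pool.Agent.Results.MP_07fa45_al.SignExtensionExact
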